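import Mathlib
import Pool.Agent.H55.Fill

/-! No Korovin orbit is paracompact. -/

namespace Pool.Agent.Results.MP_f351c6_gt.NoOrbit

open Set Pool.Agent.H55.Fill

universe u v

/-- the orbit of `f` under the shifts `(g f)(x) = f (x g)` -/
def orbit {G : Type u} {X : Type v} [CommGroup G] (f : G → X) : Set (G → X) :=
  range fun g x => f (x * g)

/-- the projection of the orbit to every countable subproduct is onto -/
def Korovin {G : Type u} {X : Type v} [CommGroup G] (f : G → X) : Prop :=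
  ∀ M : Set G, M.Countable → ∀ y : M → X, ∃ x ∈ orbit f, ∀ m : M, x m = y m

theorem result (G : Type u) (X : Type v) [CommGroup G] [TopologicalSpace X] [Nontrivial X]
    (f : G → X) (hf : Korovin f) : ¬ (T2Space (orbit f) ∧ ParacompactSpace (orbit f)) := by
  rintro ⟨h2, hp⟩
  have hD : Fills (X := fun _ : G => X) (orbit f) := hf
  have key : ∀ U : Set X, IsOpen U → U.Nonempty → U = univ := fun U hU ⟨u, hu⟩ => by
    by_contra hn
    obtain ⟨_, ⟨g, rfl⟩, h⟩ := meets hD (fun _ => Uᶜ) (fun _ => hU.isClosed_compl)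
      (fun _ => nonempty_compl.2 hn)
    obtain ⟨_, ⟨g', rfl⟩, h'⟩ := hD.ex (countable_singleton 1) fun _ => u
    have h1 : f (1 * g') = u := h' 1 rfl
    have h3 : f (g' * g⁻¹ * g) ∈ Uᶜ := h (g' * g⁻¹)
    rw [inv_mul_cancel_right, ← one_mul g', h1] at h3
    exact h3 hu
  obtain ⟨a, b, hab⟩ := exists_pair_ne X
  obtain ⟨x, hx, hx'⟩ := hD.ex (countable_singleton 1) fun _ => a
  obtain ⟨y, hy, hy'⟩ := hD.ex (countable_singleton 1) fun _ => b
  have hxy : Inseparable x y := inseparable_pi.2 fun g => inseparable_iff_forall_isOpen.2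
    fun U hU => ⟨fun h => key U hU ⟨_, h⟩ ▸ mem_univ _, fun h => key U hU ⟨_, h⟩ ▸ mem_univ _⟩
  have : (⟨x, hx⟩ : orbit f) = ⟨y, hy⟩ :=
    (Topology.IsInducing.subtypeVal.inseparable_iff.1 hxy).eq
  exact hab ((hx' 1 rfl).symm.trans ((congrFun (congrArg Subtype.val this) 1).trans (hy' 1 rfl)))

end Pool.Agent.Results.MP_f351c6_gt.NoOrbit
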